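import Pool.Agent.K9h57.FC.K0
import Pool.Agent.K9h57.FC.K1
import Pool.Agent.K9h57.FC.K2
import Pool.Agent.K9h57.FC.K3
import Pool.Agent.K9h57.FC.K4
import Pool.Agent.K9h57.FC.K5
import Pool.Agent.K9h57.FC.K6
import Pool.Agent.K9h57.FC.K7
import Pool.Agent.K9h57.FC.K8
import Pool.Agent.K9h57.FC.K9
import Pool.Agent.K9h57.FC.K10
import Pool.Agent.K9h57.FC.K11
import Pool.Agent.K9h57.FC.Val

/-!
# Orientable fillings of the circle: the lower bound of the area
-/

set_option autoImplicit false

open MeasureTheory Metric Set Filter Topology InnerProductGeometry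

namespace Pool.Agent.K9h57.FC

open Pool.Agent.H241R3.FV Pool.Agent.N526.CP Pool.Agent.K9h57.FA

theorem all (J : Fin 240) : CK dat 240 63 J := by
  by_cases h0 : J.val < 20
  · exact grp0 J.val (by omega) h0 J.isLt
  by_cases h1 : J.val < 40
  · exact grp1 J.val (by omega) h1 J.isLt
  by_cases h2 : J.val < 60
  · exact grp2 J.val (by omega) h2 J.isLt
  by_cases h3 : J.val < 80
  · exact grp3 J.val (by omega) h3 J.isLt
  by_cases h4 : J.val < 100
  · exact grp4 J.val (by omega) h4 J.isLt
  by_cases h5 : J.val < 120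
  · exact grp5 J.val (by omega) h5 J.isLt
  by_cases h6 : J.val < 140
  · exact grp6 J.val (by omega) h6 J.isLt
  by_cases h7 : J.val < 160
  · exact grp7 J.val (by omega) h7 J.isLt
  by_cases h8 : J.val < 180
  · exact grp8 J.val (by omega) h8 J.isLt
  by_cases h9 : J.val < 200
  · exact grp9 J.val (by omega) h9 J.isLt
  by_cases h10 : J.val < 220
  · exact grp10 J.val (by omega) h10 J.isLt
  exact grp11 J.val (by omega) J.isLt J.isLt

theorem area {M : Type} [MetricSpace M] [CompactSpace M] (S : OFill 2 M)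
    (hS : ∀ x y : Sph 2, angle (x : E 2) (y : E 2) ≤ dist (S.bd x) (S.bd y)) :
    ENNReal.ofReal (((1973 / 1000 : ℚ) : ℝ) * Real.pi) ≤ S.vol :=
  FA.area (V := dat) (N := 240) (L := 63) (by norm_num) ka_le rho0 tpos0 rho_lt t_lt hR hR' all _
    value S hS

end Pool.Agent.K9h57.FC
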