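import Pool.Agent.N937.P1B_BND
import Pool.Agent.K9h57.FC.Dat

/-!
# Orientable fillings of the circle: the angles of the sectors
-/

set_option autoImplicit false
set_option maxRecDepth 100000

open Set

namespace Pool.Agent.K9h57.FC

open Pool.Agent.N979.P1 Pool.Agent.K9h57.FA Pool.Agent.N937.P1B_BND

theorem dmid (l : Fin 64) (h0 : 0 < l.val) (h1 : l.val < 63) :
    Dl (dat.toQ 240 63).toDat.t l = Real.arctan ((dat.t l.val : ℚ) : ℝ) -
      Real.arctan ((dat.t (l.val - 1) : ℚ) : ℝ) := by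
  unfold Dl up3 lo3
  rw [dif_pos h1, dif_pos h0]
  rfl

theorem dfirst : Dl (dat.toQ 240 63).toDat.t (0 : Fin 64) =
    Real.arctan ((dat.t 0 : ℚ) : ℝ) := by
  unfold Dl up3 lo3
  rw [dif_pos (by decide), dif_neg (by decide)]
  simp only [sub_zero]
  rfl

theorem dlast : Dl (dat.toQ 240 63).toDat.t (Fin.last 63) =
    Real.pi / 2 - Real.arctan ((dat.t 62 : ℚ) : ℝ) := by
  unfold Dl up3 lo3
  rw [dif_neg (by simp), dif_pos (by decide)]
  rfl

theorem tpos : ∀ i : Fin 63, 0 ≤ dat.t i.val := by decide +kernel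

theorem cmid : ∀ l : Fin 62, 0 ≤ (dat.t (l.val + 1) - dat.t l.val) /
      (1 + dat.t l.val * dat.t (l.val + 1)) ∧
    dlo l.succ.castSucc ≤ atn 14 ((dat.t (l.val + 1) - dat.t l.val) /
      (1 + dat.t l.val * dat.t (l.val + 1))) ∧
    atn 15 ((dat.t (l.val + 1) - dat.t l.val) /
      (1 + dat.t l.val * dat.t (l.val + 1))) ≤ dhi l.succ.castSucc := by
  decide +kernel

theorem cfirst : 0 ≤ dat.t 0 ∧ dlo 0 ≤ atn 14 (dat.t 0) ∧ atn 15 (dat.t 0) ≤ dhi 0 := by
  decide +kernel

theorem clast : 0 ≤ (dat.t 62)⁻¹ ∧ dlo (Fin.last 63) ≤ atn 14 (dat.t 62)⁻¹ ∧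
    atn 15 (dat.t 62)⁻¹ ≤ dhi (Fin.last 63) := by
  decide +kernel

/-- the angles of the sectors -/
theorem bnd_main : BND := by
  intro l
  by_cases h0 : 0 < l.val
  · by_cases h1 : l.val < 63
    · rw [dmid l h0 h1, arctan_diff _ _ (tpos ⟨l.val - 1, by omega⟩) (tpos ⟨l.val, h1⟩)]
      obtain ⟨c1, c2, c3⟩ := cmid ⟨l.val - 1, by omega⟩
      have e : (⟨l.val - 1, by omega⟩ : Fin 62).succ.castSucc = l := by
        apply Fin.ext
        simp
        omega
      rw [e] at c2 c3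
      simp only [Nat.sub_add_cancel h0] at c1 c2 c3
      exact bnd _ _ _ c1 c2 c3
    · have hl : l = Fin.last 63 := by
        apply Fin.ext
        have := l.isLt
        simp
        omega
      subst hl
      rw [dlast]
      obtain ⟨c1, c2, c3⟩ := clast
      have hp : (0 : ℝ) < ((dat.t 62 : ℚ) : ℝ) := by
        have : (0 : ℚ) < dat.t 62 := by decide +kernel
        exact_mod_cast this
      rw [← Real.arctan_inv_of_pos hp]
      have := bnd _ _ _ c1 c2 c3
      rw [Rat.cast_inv] at this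
      exact this
  · have hl : l = 0 := by
      apply Fin.ext
      change l.val = 0
      omega
    subst hl
    rw [dfirst]
    obtain ⟨c1, c2, c3⟩ := cfirst
    exact bnd _ _ _ c1 c2 c3

end Pool.Agent.K9h57.FC
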