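import Pool.Agent.K9h57.FC.Dat

/-!
# Orientable fillings of the circle: the consistency of the data
-/

set_option autoImplicit false
set_option maxRecDepth 100000

namespace Pool.Agent.K9h57.FC

open Pool.Agent.N979.P1 Pool.Agent.N954.P1 Pool.Agent.K9h57.FA

theorem ok_z : ∀ i : Fin 64, dec (vL.getD 0 0) i.val = 0 := by decide +kernel

theorem ok_s : ∀ j : Fin 240, ∀ i : Fin 64, dec (vL.getD (j.val + 1) 0) i.val =
    dec (vL.getD j.val 0) i.val + (((rL.getD (j.val + 1) 0 : ℕ) : ℤ) - ((rL.getD j.val 0 : ℕ) : ℤ)) *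
      dec (cL.getD j.val 0) i.val := by decide +kernel

theorem ok : dat.Ok 240 63 where
  z := by
    intro i hi
    have h := ok_z ⟨i, by omega⟩
    show ((dec (vL.getD 0 0) i : ℤ) : ℚ) / 1000000000000 = 0
    rw [show dec (vL.getD 0 0) i = 0 from h]
    simp
  s := by
    intro j hj i hi
    have h := ok_s ⟨j, hj⟩ ⟨i, by omega⟩
    have h' : ((dec (vL.getD (j + 1) 0) i : ℤ) : ℚ) = ((dec (vL.getD j 0) i +
      (((rL.getD (j + 1) 0 : ℕ) : ℤ) - ((rL.getD j 0 : ℕ) : ℤ)) * dec (cL.getD j 0) i : ℤ) : ℚ) :=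
      congrArg _ h
    show ((dec (vL.getD (j + 1) 0) i : ℤ) : ℚ) / 1000000000000 =
      ((dec (vL.getD j 0) i : ℤ) : ℚ) / 1000000000000 +
      (((rL.getD (j + 1) 0 : ℕ) : ℚ) / 10000000 - ((rL.getD j 0 : ℕ) : ℚ) / 10000000) *
        (((dec (cL.getD j 0) i : ℤ) : ℚ) / 100000)
    rw [h']
    push_cast
    ring

theorem rho_s : ∀ j : Fin 240, rL.getD j.val 0 < rL.getD (j.val + 1) 0 := by decide +kernel

theorem rho_lt (j : ℕ) (hj : j < 240) : dat.ρ j < dat.ρ (j + 1) := by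
  have h := rho_s ⟨j, hj⟩
  show ((rL.getD j 0 : ℕ) : ℚ) / 10000000 < ((rL.getD (j + 1) 0 : ℕ) : ℚ) / 10000000
  have h' : ((rL.getD j 0 : ℕ) : ℚ) < ((rL.getD (j + 1) 0 : ℕ) : ℚ) := by exact_mod_cast h
  exact div_lt_div_of_pos_right h' (by norm_num)

theorem t_s : ∀ j : Fin 62, tL.getD j.val 0 < tL.getD (j.val + 1) 0 := by decide +kernel

theorem t_lt (j : ℕ) (hj : j + 1 < 63) : dat.t j < dat.t (j + 1) := by
  have h := t_s ⟨j, by omega⟩
  show ((tL.getD j 0 : ℕ) : ℚ) / 10000000 < ((tL.getD (j + 1) 0 : ℕ) : ℚ) / 10000000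
  have h' : ((tL.getD j 0 : ℕ) : ℚ) < ((tL.getD (j + 1) 0 : ℕ) : ℚ) := by exact_mod_cast h
  exact div_lt_div_of_pos_right h' (by norm_num)

theorem ka_le : |dat.ka| ≤ 2 := by decide +kernel

theorem rho0 : 0 < dat.ρ 0 := by decide +kernel

theorem tpos0 : 0 < dat.t 0 := by decide +kernel

theorem rhoN : dat.ρ 240 = 6366198 / 10000000 := by decide +kernel

theorem rhoN1 : dat.ρ (240 - 1) ≤ 6366197 / 10000000 := by decide +kernel

theorem hR : 2 / Real.pi ≤ ((dat.ρ 240 : ℚ) : ℝ) := by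
  rw [rhoN, div_le_iff₀ Real.pi_pos]
  have := Real.pi_gt_d20
  push_cast
  linarith

theorem hR' : ((dat.ρ (240 - 1) : ℚ) : ℝ) ≤ 2 / Real.pi := by
  have h1 : ((dat.ρ (240 - 1) : ℚ) : ℝ) ≤ ((6366197 / 10000000 : ℚ) : ℝ) := by
    exact_mod_cast rhoN1
  refine h1.trans ?_
  rw [le_div_iff₀ Real.pi_pos]
  have := Real.pi_lt_d20
  push_cast
  linarith

end Pool.Agent.K9h57.FC
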