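import Pool.Agent.K9h57.FC.Bnd
import Pool.Agent.K9h57.FC.Ok

/-!
# Orientable fillings of the circle: the integrals over the sectors
-/

set_option autoImplicit false
set_option maxRecDepth 100000

namespace Pool.Agent.K9h57.FC

open Pool.Agent.N979.P1 Pool.Agent.N954.P1 Pool.Agent.K9h57.FA

theorem enc_num : ∀ i : Fin (63 + 1),
    (10 ^ 24 * (dhi i + sT i) ≤ ((tbL.getD i.val (0, 0, 0, 0)).2.1 : ℚ) + 1 ∧
      ((tbL.getD i.val (0, 0, 0, 0)).2.1 : ℚ) - 1 ≤ 10 ^ 24 * (dlo i + sT i)) ∧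
    (10 ^ 24 * (dhi i - sT i) ≤ ((tbL.getD i.val (0, 0, 0, 0)).2.2.1 : ℚ) + 1 ∧
      ((tbL.getD i.val (0, 0, 0, 0)).2.2.1 : ℚ) - 1 ≤ 10 ^ 24 * (dlo i - sT i)) ∧
    (10 ^ 24 * kT i ≤ ((tbL.getD i.val (0, 0, 0, 0)).2.2.2 : ℚ) + 1 ∧
      ((tbL.getD i.val (0, 0, 0, 0)).2.2.2 : ℚ) - 1 ≤ 10 ^ 24 * kT i) := by
  decide +kernel

theorem enc : Encl dat 240 63 tbL :=
  encl_of dlo dhi sT kT bnd_main hsT hkT enc_num

theorem t_num : ∀ i : Fin 63, tL.getD i.val 0 = (tbL.getD i.val (0, 0, 0, 0)).1 := by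
  decide +kernel

theorem r_num : ∀ i : Fin 241, 0 < rL.getD i.val 0 := by decide +kernel

/-- the numerical test for the interval `j` with the weights `w`, `w'` -/
def CH (j w w' : ℕ) : Prop :=
  chk tbL 1999400000000 (rL.getD j 0) (cL.getD j 0) (vL.getD j 0) w ∧
  chk tbL 1999400000000 (rL.getD (j + 1) 0) (cL.getD j 0) (vL.getD (j + 1) 0) w'

instance (j w w' : ℕ) : Decidable (CH j w w') := by unfold CH; infer_instance

theorem ck (J : Fin 240) {w w' : ℕ} (h : CH J.val w w') : CK dat 240 63 J := by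
  have hlen : tbL.length = 63 + 1 := by decide +kernel
  have hk : dat.ka = ((1999400000000 : ℤ) : ℚ) / 1000000000000 := by
    show (9997 / 5000 : ℚ) = _
    norm_num
  have ht : ∀ i, i < 63 → dat.t i = ((tbL.getD i (0, 0, 0, 0)).1 : ℚ) / 10000000 := by
    intro i hi
    show ((tL.getD i 0 : ℕ) : ℚ) / 10000000 = _
    rw [t_num ⟨i, hi⟩]
  obtain ⟨l, hl⟩ := condF ok J J.val (Or.inl rfl) hlen (r_num ⟨J.val, by omega⟩) rfl hk ht
    (fun _ _ => rfl) (fun _ _ => rfl) enc h.1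
  obtain ⟨l', hl'⟩ := condF ok J (J.val + 1) (Or.inr rfl) hlen (r_num ⟨J.val + 1, by omega⟩) rfl
    hk ht (fun _ _ => rfl) (fun _ _ => rfl) enc h.2
  exact ⟨l, l', hl, hl'⟩

end Pool.Agent.K9h57.FC
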